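import Pool.Agent.Lib.MP_98022b_ab.Esp

/-!
# Virtually solvable groups of bounded rank
-/

set_option autoImplicit false

namespace Pool.Agent.Biset

/-- Virtually poly-(rank one) groups of Hirsch length at most `n`. -/
def VS : ℕ → (G : Type) → [Group G] → Prop
  | 0, G, _ => Finite G
  | n + 1, G, _ => ∃ K : Subgroup G, K.FiniteIndex ∧ ∃ lam : K →* Multiplicative ℚ, VS n lam.ker

theorem VS.of_injective {n : ℕ} {G H : Type} [Group G] [Group H] (f : G →* H)
    (hf : Function.Injective f) (h : VS n H) : VS n G := by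
  induction n generalizing G H with
  | zero =>
    have h1 : Finite H := h
    exact Finite.of_injective f hf
  | succ n ih =>
    obtain ⟨K, hK, lam, hl⟩ := h
    have hK' : (K.comap f).FiniteIndex := by
      constructor
      rw [Subgroup.index_comap]
      intro h1
      exact hK.index_ne_zero (Subgroup.index_eq_zero_of_relIndex_eq_zero h1)
    refine ⟨K.comap f, hK', lam.comp (f.subgroupComap K), ?_⟩
    refine ih (((f.subgroupComap K).comp (lam.comp (f.subgroupComap K)).ker.subtype).codRestrict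
      lam.ker (fun x => x.2)) ?_ hl
    intro x y hxy
    have h1 : f.subgroupComap K x = f.subgroupComap K y := congrArg Subtype.val hxy
    have h2 : f (x : K.comap f) = f (y : K.comap f) := congrArg Subtype.val h1
    exact Subtype.ext (Subtype.ext (hf h2))

theorem VS.of_finiteIndex {n : ℕ} {G : Type} [Group G] (K : Subgroup G) (hK : K.FiniteIndex)
    (h : VS n K) : VS n G := by
  cases n with
  | zero =>
    have h1 : Finite K := h
    have h2 : Finite (G ⧸ K) := Subgroup.finiteIndex_iff_finite_quotient.1 hK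
    exact Finite.of_equiv _ (Subgroup.groupEquivQuotientProdSubgroup (s := K)).symm
  | succ n =>
    obtain ⟨K', hK', lam, hl⟩ := h
    let e : K' ≃* K'.map K.subtype := K'.equivMapOfInjective K.subtype K.subtype_injective
    refine ⟨K'.map K.subtype, ⟨?_⟩, lam.comp e.symm.toMonoidHom, ?_⟩
    · rw [Subgroup.index_map_subtype]
      exact mul_ne_zero hK'.index_ne_zero hK.index_ne_zero
    · refine VS.of_injective ((e.symm.toMonoidHom.comp
        (lam.comp e.symm.toMonoidHom).ker.subtype).codRestrict lam.ker (fun x => x.2)) ?_ hl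
      intro x y hxy
      have h1 : e.symm x = e.symm y := congrArg Subtype.val hxy
      exact Subtype.ext (e.symm.injective h1)

theorem VS.succ {n : ℕ} {G : Type} [Group G] (h : VS n G) : VS (n + 1) G := by
  refine ⟨⊤, inferInstance, 1, ?_⟩
  refine VS.of_injective ((⊤ : Subgroup G).subtype.comp
    (1 : (⊤ : Subgroup G) →* Multiplicative ℚ).ker.subtype) ?_ h
  intro x y hxy
  exact Subtype.ext (Subtype.ext hxy)

theorem mulRat_zpow_eq_one {a : Multiplicative ℚ} {m : ℤ} (hm : m ≠ 0) (h : a ^ m = 1) :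
    a = 1 := by
  have h1 : (m : ℚ) * a.toAdd = 0 := by
    have := congrArg Multiplicative.toAdd h
    rw [toAdd_zpow, toAdd_one, zsmul_eq_mul] at this
    exact this
  rcases mul_eq_zero.mp h1 with h2 | h2
  · exact absurd (by exact_mod_cast h2) hm
  · rw [← ofAdd_toAdd a, h2, ofAdd_zero]

theorem VS.succ_of_hom {m : ℕ} {H : Type} [Group H] (mu : H →* Multiplicative ℚ)
    (h : VS m mu.ker) : VS (m + 1) H := by
  refine ⟨⊤, inferInstance, mu.comp (⊤ : Subgroup H).subtype, ?_⟩
  let f : (mu.comp (⊤ : Subgroup H).subtype).ker →* mu.ker :=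
    ((⊤ : Subgroup H).subtype.comp (mu.comp (⊤ : Subgroup H).subtype).ker.subtype).codRestrict mu.ker
      (fun x => x.2)
  refine VS.of_injective f ?_ h
  intro a b hab
  have h1 : (((a : (⊤ : Subgroup H)) : H)) = ((b : (⊤ : Subgroup H)) : H) :=
    congrArg (fun z => ((z : mu.ker) : H)) hab
  exact Subtype.ext (Subtype.ext h1)

/-- reduction to a subgroup of finite index -/
private theorem vs_inter {m : ℕ} {G : Type} [Group G] {K : Subgroup G} (hK : K.FiniteIndex)
    (f : G →* Multiplicative ℚ) (h : VS m (f.comp K.subtype).ker) : VS m f.ker := by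
  have hfi : (K.subgroupOf f.ker).FiniteIndex := inferInstance
  refine VS.of_finiteIndex (K.subgroupOf f.ker) hfi ?_
  let φ : (K.subgroupOf f.ker) →* (f.comp K.subtype).ker :=
    { toFun := fun x => ⟨⟨((x : f.ker) : G), x.2⟩, (x : f.ker).2⟩
      map_one' := rfl
      map_mul' := fun a b => rfl }
  refine VS.of_injective φ ?_ h
  intro a b hab
  have h1 : (((a : f.ker)) : G) = ((b : f.ker) : G) :=
    congrArg (fun z => ((z : (f.comp K.subtype).ker).1 : G)) hab
  exact Subtype.ext (Subtype.ext h1)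

/-- two nonzero rational numbers are commensurable -/
theorem rat_comm (r s : ℚ) :
    ((s.num * r.den : ℤ) : ℚ) * r = ((r.num * s.den : ℤ) : ℚ) * s := by
  have h1 : (r.den : ℚ) * r = r.num := Rat.den_mul_eq_num r
  have h2 : (s.den : ℚ) * s = s.num := Rat.den_mul_eq_num s
  push_cast
  rw [mul_assoc, h1, mul_assoc, h2, mul_comm]

private theorem vs_trivial {m : ℕ} {K : Type} [Group K] (lam : K →* Multiplicative ℚ)
    (hker : VS m lam.ker) (f : K →* Multiplicative ℚ) (hf : f ≠ 1) (hL : ∀ x, lam x = 1 → f x = 1) :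
    VS m f.ker := by
  obtain ⟨k, hk⟩ : ∃ k, f k ≠ 1 := by
    by_contra hcon
    push Not at hcon
    exact hf (MonoidHom.ext hcon)
  have hle : f.ker ≤ lam.ker := by
    intro x hx
    rw [MonoidHom.mem_ker] at hx ⊢
    set r := Multiplicative.toAdd (lam x) with hr
    set s := Multiplicative.toAdd (lam k) with hs
    have h1 : lam (x ^ (s.num * (r.den : ℤ)) * k ^ (-(r.num * (s.den : ℤ)))) = 1 := by
      rw [map_mul, map_zpow, map_zpow, ← toAdd_eq_zero, toAdd_mul, toAdd_zpow, toAdd_zpow,
        zsmul_eq_mul, zsmul_eq_mul, ← hr, ← hs, Int.cast_neg, neg_mul, rat_comm r s]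
      ring
    have h2 := hL _ h1
    rw [map_mul, map_zpow, map_zpow, hx, one_zpow, one_mul] at h2
    by_contra hne
    have h3 : -(r.num * (s.den : ℤ)) ≠ 0 := by
      intro h0
      apply hne
      rw [neg_eq_zero, mul_eq_zero] at h0
      rcases h0 with h0 | h0
      · rw [← ofAdd_toAdd (lam x), ← hr, Rat.num_eq_zero.1 h0, ofAdd_zero]
      · exact absurd h0 (by exact_mod_cast s.den_ne_zero)
    exact hk (mulRat_zpow_eq_one h3 h2)
  exact VS.of_injective (Subgroup.inclusion hle) (Subgroup.inclusion_injective hle) hker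

private theorem vs_ne_one {G : Type} [Group G] {K : Subgroup G} (hK : K.FiniteIndex)
    (f : G →* Multiplicative ℚ) (hf : f ≠ 1) : f.comp K.subtype ≠ 1 := by
  intro h
  apply hf
  apply MonoidHom.ext
  intro g
  obtain ⟨m, hm0, -, hm⟩ := Subgroup.exists_pow_mem_of_index_ne_zero hK.index_ne_zero g
  have h1 : f (g ^ m) = 1 := by
    have := DFunLike.congr_fun h (⟨g ^ m, hm⟩ : K)
    exact this
  rw [map_pow] at h1
  have h2 : (f g) ^ (m : ℤ) = 1 := by rw [zpow_natCast]; exact h1
  exact mulRat_zpow_eq_one (by exact_mod_cast hm0.ne') h2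

/-- The kernel of a nontrivial homomorphism to the rationals. -/
theorem VS.ker {n : ℕ} {G : Type} [Group G] (h : VS (n + 1) G) (f : G →* Multiplicative ℚ)
    (hf : f ≠ 1) : VS n f.ker := by
  induction n generalizing G with
  | zero =>
    obtain ⟨K, hK, lam, hker⟩ := h
    refine vs_inter hK f ?_
    refine vs_trivial lam hker _ (vs_ne_one hK f hf) ?_
    intro x hx
    have hfin : Finite lam.ker := hker
    have hx' : (⟨x, hx⟩ : lam.ker) ^ Nat.card lam.ker = 1 := pow_card_eq_one'
    have h1 : x ^ Nat.card lam.ker = 1 := congrArg Subtype.val hx'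
    have h2 : ((f.comp K.subtype) x) ^ ((Nat.card lam.ker : ℕ) : ℤ) = 1 := by
      rw [zpow_natCast, ← map_pow, h1, map_one]
    exact mulRat_zpow_eq_one (by exact_mod_cast Nat.card_pos.ne') h2
  | succ m ih =>
    obtain ⟨K, hK, lam, hker⟩ := h
    refine vs_inter hK f ?_
    by_cases hL : (f.comp K.subtype).comp lam.ker.subtype = 1
    · refine vs_trivial lam hker _ (vs_ne_one hK f hf) ?_
      intro x hx
      exact DFunLike.congr_fun hL (⟨x, hx⟩ : lam.ker)
    · have h1 := ih hker ((f.comp K.subtype).comp lam.ker.subtype) hL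
      refine VS.succ_of_hom (lam.comp (f.comp K.subtype).ker.subtype) ?_
      let φ : (lam.comp (f.comp K.subtype).ker.subtype).ker →*
          ((f.comp K.subtype).comp lam.ker.subtype).ker :=
        { toFun := fun x => ⟨⟨((x : (f.comp K.subtype).ker) : K), x.2⟩, (x : (f.comp K.subtype).ker).2⟩
          map_one' := rfl
          map_mul' := fun a b => rfl }
      refine VS.of_injective φ ?_ h1
      intro a b hab
      have h1 : (((a : (f.comp K.subtype).ker)) : K) = ((b : (f.comp K.subtype).ker) : K) :=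
        congrArg (fun z => ((z : ((f.comp K.subtype).comp lam.ker.subtype).ker).1 : K)) hab
      exact Subtype.ext (Subtype.ext h1)

/-- Restriction along a homomorphism. -/
private theorem vh_comp' {G H : Type} [Group G] [Group H] (φ : H →* G) {f : G → ℚ}
    (hf : f ∈ VH G) : (fun h => f (φ h)) ∈ VH H := by
  obtain ⟨h1, K, hK, h2⟩ := hf
  refine ⟨fun x m => ?_, K.comap φ, ⟨?_⟩, fun a ha b hb => ?_⟩
  · change f (φ (x ^ m)) = m * f (φ x)
    rw [map_zpow, h1]
  · rw [Subgroup.index_comap]
    exact mt Subgroup.index_eq_zero_of_relIndex_eq_zero hK.index_ne_zero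
  · change f (φ (a * b)) = f (φ a) + f (φ b)
    rw [map_mul]
    exact h2 _ ha _ hb

theorem VS.finiteDimensional {n : ℕ} {G : Type} [Group G] (h : VS n G) :
    FiniteDimensional ℚ (VH G) := by
  induction n generalizing G with
  | zero =>
    have : Finite G := h
    infer_instance
  | succ n ih =>
    obtain ⟨K, hK, lam, hlam⟩ := h
    have hfd := ih hlam
    -- a point where `lam` is nontrivial, if there is one
    obtain ⟨x0, hx0⟩ : ∃ x0 : K, lam x0 = 1 → lam = 1 := by
      by_cases h1 : lam = 1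
      · exact ⟨1, fun _ => h1⟩
      · obtain ⟨x, hx⟩ := DFunLike.ne_iff.1 h1
        exact ⟨x, fun h => absurd h hx⟩
    set φ : lam.ker →* G := K.subtype.comp lam.ker.subtype with hφ
    set R : VH G →ₗ[ℚ] VH lam.ker :=
      (LinearMap.funLeft ℚ ℚ (φ : lam.ker → G)).restrict (fun f hf => vh_comp' φ hf) with hR
    set E : VH G →ₗ[ℚ] ℚ := (LinearMap.proj (x0 : G)).comp (VH G).subtype with hE
    refine Module.Finite.of_injective (R.prod E) ?_
    rw [← LinearMap.ker_eq_bot, LinearMap.ker_eq_bot']
    rintro ⟨f, hf⟩ hf0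
    have hL : R ⟨f, hf⟩ = 0 := congrArg Prod.fst hf0
    have hx : E ⟨f, hf⟩ = 0 := congrArg Prod.snd hf0
    have hL' : ∀ l : lam.ker, f (φ l) = 0 := by
      intro l
      have := congrFun (congrArg Subtype.val hL) l
      exact this
    have hx' : f (x0 : G) = 0 := hx
    obtain ⟨h1, K1, hK1, h2⟩ := hf
    apply Subtype.ext
    funext y
    change f y = 0
    obtain ⟨m, hm, -, hmem⟩ := Subgroup.exists_pow_mem_of_index_ne_zero
      (Subgroup.index_inf_ne_zero hK.index_ne_zero hK1.index_ne_zero) y
    obtain ⟨j, hj, -, hjmem⟩ := Subgroup.exists_pow_mem_of_index_ne_zero hK1.index_ne_zero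
      (x0 : G)
    set z : K := ⟨y ^ m, hmem.1⟩ with hz
    set r : ℚ := Multiplicative.toAdd (lam z) with hr
    set s : ℚ := Multiplicative.toAdd (lam x0) with hs
    have hyz : f ((z : K) : G) = m * f y := by
      have := h1 y m
      rw [zpow_natCast] at this
      simpa [hz] using this
    have hzf : f ((z : K) : G) = 0 := by
      by_cases hb0 : s = 0
      · -- `lam` is trivial
        have hl : lam = 1 := hx0 (by
          apply Multiplicative.toAdd.injective
          exact hb0)
        exact hL' ⟨z, by rw [MonoidHom.mem_ker, hl]; rfl⟩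
      · set b : ℤ := s.num * (r.den : ℤ) with hb
        set a : ℤ := r.num * (s.den : ℤ) with ha
        have hbne : b ≠ 0 := mul_ne_zero (mt Rat.num_eq_zero.1 hb0)
          (by exact_mod_cast r.den_ne_zero)
        have hab : (b : ℚ) * r = (a : ℚ) * s := rat_comm r s
        have hu : z ^ ((j : ℤ) * b) * x0 ^ (-((j : ℤ) * a)) ∈ lam.ker := by
          rw [MonoidHom.mem_ker, map_mul, map_zpow, map_zpow]
          apply Multiplicative.toAdd.injective
          rw [toAdd_mul, toAdd_zpow, toAdd_zpow, toAdd_one, ← hr, ← hs, zsmul_eq_mul, zsmul_eq_mul]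
          push_cast
          rw [mul_assoc, hab]
          ring
        have h3 := hL' ⟨_, hu⟩
        have h4 : φ ⟨_, hu⟩ = ((z : K) : G) ^ ((j : ℤ) * b) * (x0 : G) ^ (-((j : ℤ) * a)) := by
          simp [hφ]
        rw [h4, h2 _ (Subgroup.zpow_mem _ hmem.2 _) _ (by
          rw [neg_mul_eq_mul_neg, zpow_mul, zpow_natCast]
          exact Subgroup.zpow_mem _ hjmem _), h1, h1, hx', mul_zero, add_zero, mul_eq_zero] at h3
        rcases h3 with h3 | h3
        · exfalso
          have h5 : (j : ℤ) * b ≠ 0 := mul_ne_zero (by omega) hbne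
          exact h5 (by exact_mod_cast h3)
        · exact h3
    rw [hzf] at hyz
    have : (m : ℚ) ≠ 0 := by
      have : m ≠ 0 := by omega
      exact_mod_cast this
    have h6 := hyz.symm
    rw [mul_eq_zero] at h6
    rcases h6 with h6 | h6
    · exact absurd h6 this
    · exact h6

/-- A group that is not of smaller rank has a nontrivial virtual homomorphism. -/
theorem VS.exists_VH {n : ℕ} {G : Type} [Group G] (h : VS (n + 1) G) (h' : ¬ VS n G) :
    ∃ f ∈ VH G, f ≠ 0 := by
  obtain ⟨K, hK, lam, hl⟩ := h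
  have hN : K.normalCore.FiniteIndex := inferInstance
  set N := K.normalCore with hNdef
  have hNK : N ≤ K := K.normalCore_le
  set m := N.index with hm
  have hm0 : (m : ℚ) ≠ 0 := by exact_mod_cast hN.index_ne_zero
  have hpow : ∀ x : G, x ^ m ∈ K := fun x => hNK (N.pow_index_mem x)
  let L : G → ℚ := fun x => Multiplicative.toAdd (lam ⟨x ^ m, hpow x⟩)
  have hLN : ∀ a (ha : a ∈ N), L a = m * Multiplicative.toAdd (lam ⟨a, hNK ha⟩) := by
    intro a ha
    have h1 : (⟨a ^ m, hpow a⟩ : K) = ⟨a, hNK ha⟩ ^ m := rfl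
    simp only [L]
    rw [h1, map_pow, toAdd_pow, nsmul_eq_mul]
  refine ⟨fun x => L x / m, ⟨fun x k => ?_, N, hN, fun a ha b hb => ?_⟩, ?_⟩
  · have h1 : L (x ^ k) = k * L x := by
      have h2 : (⟨(x ^ k) ^ m, hpow (x ^ k)⟩ : K) = ⟨x ^ m, hpow x⟩ ^ k := by
        apply Subtype.ext
        change (x ^ k) ^ m = (x ^ m) ^ k
        rw [← zpow_natCast, ← zpow_mul, ← zpow_natCast, ← zpow_mul, mul_comm]
      simp only [L]
      rw [h2, map_zpow, toAdd_zpow, zsmul_eq_mul]
    simp only [h1]
    ring
  · simp only [hLN _ ha, hLN _ hb, hLN _ (N.mul_mem ha hb)]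
    have h1 : (⟨a * b, hNK (N.mul_mem ha hb)⟩ : K) = ⟨a, hNK ha⟩ * ⟨b, hNK hb⟩ := rfl
    rw [h1, map_mul, toAdd_mul]
    field_simp
  · intro h0
    apply h'
    have hz : ∀ a (ha : a ∈ N), lam ⟨a, hNK ha⟩ = 1 := by
      intro a ha
      have h1 := congrFun h0 a
      simp only [hLN _ ha, Pi.zero_apply] at h1
      rw [mul_div_assoc, mul_div_cancel₀ _ hm0] at h1
      exact Multiplicative.toAdd.injective h1
    refine VS.of_finiteIndex N hN ?_
    refine VS.of_injective ((Subgroup.inclusion hNK).codRestrict lam.ker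
      (fun x => hz x.1 x.2)) ?_ hl
    intro x y hxy
    have h1 : Subgroup.inclusion hNK x = Subgroup.inclusion hNK y := congrArg Subtype.val hxy
    exact Subgroup.inclusion_injective hNK h1

theorem VS.finite_of_VH {n : ℕ} {G : Type} [Group G] (h : VS n G) (h0 : ∀ f ∈ VH G, f = 0) :
    Finite G := by
  induction n with
  | zero => exact h
  | succ n ih =>
    by_cases h1 : VS n G
    · exact ih h1
    · obtain ⟨f, h2, h3⟩ := h.exists_VH h1
      exact absurd (h0 f h2) h3

theorem VS.of_finite {G : Type} [Group G] (h : Finite G) (n : ℕ) : VS n G := by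
  induction n with
  | zero => exact h
  | succ n ih => exact ih.succ

theorem VS.mono {m n : ℕ} (hmn : m ≤ n) {G : Type} [Group G] (h : VS m G) : VS n G := by
  induction hmn with
  | refl => exact h
  | step _ ih => exact ih.succ

/-- The vanishing subgroup of a nontrivial virtual homomorphism has smaller rank. -/
theorem VS.of_VH {n : ℕ} {G : Type} [Group G] (h : VS (n + 1) G) {f : G → ℚ} (hf : f ∈ VH G)
    (hf0 : f ≠ 0) (Y : Subgroup G) (hY : ∀ y ∈ Y, f y = 0) : VS n Y := by
  obtain ⟨hhom, K, hK, hadd⟩ := hf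
  have h1 : f 1 = 0 := by
    have := hhom 1 0
    simpa using this
  let g : K →* Multiplicative ℚ :=
    { toFun := fun x => Multiplicative.ofAdd (f x)
      map_one' := by
        show Multiplicative.ofAdd (f 1) = 1
        rw [h1]; rfl
      map_mul' := fun a b => by
        show Multiplicative.ofAdd (f (a * b)) = _
        rw [hadd a a.2 b b.2, ofAdd_add] }
  have hg : g ≠ 1 := by
    intro hg
    apply hf0
    funext x
    obtain ⟨m, hm0, -, hm⟩ := Subgroup.exists_pow_mem_of_index_ne_zero hK.index_ne_zero x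
    have h2 : f (x ^ m) = 0 := by
      have := DFunLike.congr_fun hg (⟨x ^ m, hm⟩ : K)
      exact congrArg Multiplicative.toAdd this
    have h3 := hhom x (m : ℤ)
    rw [zpow_natCast, h2] at h3
    have h4 : ((m : ℤ) : ℚ) ≠ 0 := by
      have : m ≠ 0 := by omega
      exact_mod_cast this
    exact (mul_eq_zero.1 h3.symm).resolve_left h4
  have h5 : VS (n + 1) K := h.of_injective K.subtype K.subtype_injective
  have h6 := h5.ker g hg
  have hfi : (K.subgroupOf Y).FiniteIndex := inferInstance
  refine VS.of_finiteIndex (K.subgroupOf Y) hfi ?_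
  refine h6.of_injective
    { toFun := fun x => ⟨⟨((x : Y) : G), x.2⟩, by
        rw [MonoidHom.mem_ker]
        show Multiplicative.ofAdd (f ((x : Y) : G)) = 1
        rw [hY _ (x : Y).2]; rfl⟩
      map_one' := rfl
      map_mul' := fun a b => rfl } ?_
  intro a b hab
  have h7 : (((a : Y)) : G) = ((b : Y) : G) :=
    congrArg (fun z => (((z : g.ker) : K) : G)) hab
  exact Subtype.ext (Subtype.ext h7)

/-- E4 for `VS`. -/
theorem Es.finiteDimensional_vs {M : Type} [Group M] {n : ℕ} {B : Subgroup M} (h : VS n B) :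
    FiniteDimensional ℚ (Es B) := by
  have := VS.finiteDimensional h
  let r : Es B →ₗ[ℚ] VH B :=
    { toFun := fun f => ⟨fun b => f.1 b, by
        obtain ⟨f, h0, hhom, K, hK, hadd⟩ := f
        refine ⟨fun x m => ?_, K.subgroupOf B, ⟨hK⟩, fun a ha b hb => hadd a ha b hb⟩
        exact hhom x m⟩
      map_add' := fun f g => rfl
      map_smul' := fun c f => rfl }
  refine FiniteDimensional.of_injective r ?_
  rw [← LinearMap.ker_eq_bot, LinearMap.ker_eq_bot']
  intro f hf
  apply Subtype.ext
  refine Es.eq_zero f.2 (K := B) (by simp) ?_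
  intro k _ hk
  exact congrFun (congrArg Subtype.val hf) (⟨k, hk⟩ : B)

/-- restriction of an element of `Es B` to `B` -/
theorem Es.mem_VH {M : Type} [Group M] {B : Subgroup M} {f : M → ℚ} (hf : f ∈ Es B) :
    (fun b : B => f b) ∈ VH B := by
  obtain ⟨h0, hhom, K, hK, hadd⟩ := hf
  exact ⟨fun x m => hhom x m, K.subgroupOf B, ⟨hK⟩, fun a ha b hb => hadd a ha b hb⟩

/-- The vanishing subgroup of a nonzero element of `Es B` has smaller rank. -/
theorem VS.of_Es {M : Type} [Group M] {n : ℕ} {B : Subgroup M} (h : VS (n + 1) B) {f : M → ℚ}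
    (hf : f ∈ Es B) (hf0 : f ≠ 0) {Y : Subgroup M} {L : Subgroup M} (hYB : Y ≤ B)
    (hL : L.relIndex Y ≠ 0) (hY : ∀ y ∈ L, y ∈ Y → f y = 0) : VS n Y := by
  have h1 := Es.mem_VH hf
  have h2 : (fun b : B => f b) ≠ 0 := by
    intro h0
    apply hf0
    refine Es.eq_zero hf (K := B) (by simp) ?_
    intro k _ hk
    exact congrFun h0 (⟨k, hk⟩ : B)
  have h3 := VS.of_VH h h1 h2 ((L ⊓ Y).subgroupOf B) (fun y hy => hY _ hy.1 hy.2)
  refine VS.of_finiteIndex (L.subgroupOf Y) ⟨hL⟩ ?_
  refine h3.of_injective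
    { toFun := fun x => ⟨⟨((x : Y) : M), hYB (x : Y).2⟩, x.2, (x : Y).2⟩
      map_one' := rfl
      map_mul' := fun a b => rfl } ?_
  intro a b hab
  have h7 : (((a : Y)) : M) = ((b : Y) : M) :=
    congrArg (fun z => (((z : (L ⊓ Y).subgroupOf B) : B) : M)) hab
  exact Subtype.ext (Subtype.ext h7)

end Pool.Agent.Biset
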