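import Mathlib

/-!
# Subgroups containing a joint kernel of homomorphisms to `ℚ` and all `m`-th powers
-/

set_option autoImplicit false

namespace Pool.Agent.Biset

/-- One homomorphism. -/
private theorem X1_one {A : Type} [Group A] (f : A →* Multiplicative ℚ) (B : Subgroup A)
    (hker : ∀ a, f a = 1 → a ∈ B) (m : ℕ) (hm : 0 < m) (hpow : ∀ a : A, a ^ m ∈ B) :
    B.FiniteIndex := by
  classical
  by_contra hB
  have hinf : Infinite (A ⧸ B) := by
    by_contra hfin
    rw [not_infinite_iff_finite] at hfin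
    exact hB (Subgroup.finiteIndex_of_finite_quotient)
  obtain ⟨s, hs⟩ := Infinite.exists_subset_card_eq (A ⧸ B) (m + 1)
  let q : A ⧸ B → ℚ := fun x => Multiplicative.toAdd (f x.out)
  let N : ℕ := ∏ x ∈ s, (q x).den
  have hN : N ≠ 0 := Finset.prod_ne_zero_iff.2 fun x _ => (q x).den_nz
  have hNq : (N : ℚ) ≠ 0 := Nat.cast_ne_zero.2 hN
  -- the subgroup of the integers `N f(y)`
  let S : AddSubgroup ℤ :=
    { carrier := {z | ∃ y : A, (N : ℚ) * Multiplicative.toAdd (f y) = z}
      zero_mem' := ⟨1, by simp⟩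
      add_mem' := by
        rintro a b ⟨y, hy⟩ ⟨z, hz⟩
        refine ⟨y * z, ?_⟩
        rw [map_mul, toAdd_mul, mul_add, hy, hz]
        push_cast
        ring
      neg_mem' := by
        rintro a ⟨y, hy⟩
        refine ⟨y⁻¹, ?_⟩
        rw [map_inv, toAdd_inv, mul_neg, hy]
        push_cast
        ring }
  have hint : ∀ x ∈ s, ∃ z : ℤ, (N : ℚ) * q x = z := by
    intro x hx
    obtain ⟨c, hc⟩ : (q x).den ∣ N := Finset.dvd_prod_of_mem (fun x => (q x).den) hx
    refine ⟨c * (q x).num, ?_⟩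
    have h1 : ((q x).den : ℚ) * q x = (q x).num := Rat.den_mul_eq_num (q x)
    rw [hc]
    push_cast
    rw [← h1]
    ring
  obtain ⟨g, hg⟩ : ∃ g : ℤ, S = AddSubgroup.zmultiples g := by
    obtain ⟨a, ha⟩ := Int.subgroup_cyclic S
    exact ⟨a, by rw [ha, AddSubgroup.zmultiples_eq_closure]⟩
  have hgS : g ∈ S := by rw [hg]; exact AddSubgroup.mem_zmultiples g
  obtain ⟨y0, hy0⟩ := hgS
  have hk : ∀ x ∈ s, ∃ k : ℤ, (N : ℚ) * q x = (g : ℚ) * k := by
    intro x hx
    obtain ⟨z, hz⟩ := hint x hx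
    have hzS : z ∈ S := ⟨x.out, hz⟩
    rw [hg, AddSubgroup.mem_zmultiples_iff] at hzS
    obtain ⟨k, hk⟩ := hzS
    refine ⟨k, ?_⟩
    rw [hz, ← hk]
    rw [zsmul_eq_mul, mul_comm]
    push_cast
    ring
  choose! k hk using hk
  have hne : NeZero m := ⟨hm.ne'⟩
  obtain ⟨x, hx, x', hx', hxx, hkk⟩ : ∃ x ∈ s, ∃ x' ∈ s, x ≠ x' ∧
      ((k x : ℤ) : ZMod m) = ((k x' : ℤ) : ZMod m) := by
    refine Finset.exists_ne_map_eq_of_card_lt_of_maps_to (t := Finset.univ) ?_ ?_
    · rw [hs, Finset.card_univ, ZMod.card]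
      exact Nat.lt_succ_self m
    · intro x _
      exact Finset.mem_coe.2 (Finset.mem_univ _)
  rw [ZMod.intCast_eq_intCast_iff_dvd_sub] at hkk
  obtain ⟨t, ht⟩ := hkk
  apply hxx
  rw [← QuotientGroup.out_eq' x, ← QuotientGroup.out_eq' x', QuotientGroup.eq]
  have h1 : f (x.out⁻¹ * x'.out) = f ((y0 ^ t) ^ m) := by
    apply Multiplicative.toAdd.injective
    rw [map_mul, map_inv, toAdd_mul, toAdd_inv, map_pow, map_zpow, toAdd_pow, toAdd_zpow]
    have h2 := hk x hx
    have h3 := hk x' hx'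
    have h4 : (k x' : ℚ) - k x = m * t := by exact_mod_cast ht
    apply mul_left_cancel₀ hNq
    have h5 : (N : ℚ) * (m • t • Multiplicative.toAdd (f y0)) = m * t * g := by
      rw [nsmul_eq_mul, zsmul_eq_mul, ← hy0]
      ring
    rw [h5, ← h4, mul_add, mul_neg]
    have h6 : (N : ℚ) * Multiplicative.toAdd (f x.out) = g * k x := h2
    have h7 : (N : ℚ) * Multiplicative.toAdd (f x'.out) = g * k x' := h3
    rw [h6, h7]
    ring
  have h2 : x.out⁻¹ * x'.out * ((y0 ^ t) ^ m)⁻¹ ∈ B := by
    apply hker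
    rw [map_mul, h1, map_inv, mul_inv_cancel]
  have h3 := B.mul_mem h2 (hpow (y0 ^ t))
  rwa [inv_mul_cancel_right] at h3

/-- A subgroup which contains the joint kernel of finitely many homomorphisms to `ℚ` and all `m`-th
powers has finite index. -/
theorem finIdx_of_homs {A : Type} [Group A] {d : ℕ} (f : Fin d → (A →* Multiplicative ℚ))
    (B : Subgroup A) (hker : ∀ a, (∀ i, f i a = 1) → a ∈ B) (m : ℕ) (hm : 0 < m)
    (hpow : ∀ a : A, a ^ m ∈ B) : B.FiniteIndex := by
  induction d generalizing A with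
  | zero =>
    have h1 : B = ⊤ := by
      rw [eq_top_iff]
      intro a _
      exact hker a (fun i => i.elim0)
    rw [h1]
    infer_instance
  | succ d ih =>
    have hnorm : B.Normal := by
      refine ⟨fun b hb a => ?_⟩
      have h1 : a * b * a⁻¹ * b⁻¹ ∈ B := by
        apply hker
        intro i
        rw [map_mul, map_mul, map_mul, map_inv, map_inv, mul_comm (f i a), mul_assoc (f i b),
          mul_inv_cancel, mul_one, mul_inv_cancel]
      have h2 := B.mul_mem h1 hb
      rwa [inv_mul_cancel_right] at h2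
    let A' : Subgroup A := (f (Fin.last d)).ker
    have h1 : (B.subgroupOf A').FiniteIndex := by
      refine ih (A := A') (fun i => (f i.castSucc).comp A'.subtype) (B.subgroupOf A') ?_ ?_
      · intro a ha
        rw [Subgroup.mem_subgroupOf]
        apply hker
        intro i
        refine Fin.lastCases ?_ (fun i => ?_) i
        · exact a.2
        · exact ha i
      · intro a
        rw [Subgroup.mem_subgroupOf]
        exact hpow a
    have h2 : (B ⊔ A').FiniteIndex := by
      refine X1_one (f (Fin.last d)) (B ⊔ A') ?_ m hm ?_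
      · intro a ha
        exact Subgroup.mem_sup_right ha
      · intro a
        exact Subgroup.mem_sup_left (hpow a)
    refine ⟨?_⟩
    have h3 : B.relIndex (B ⊔ A') * (B ⊔ A').index = B.index :=
      Subgroup.relIndex_mul_index le_sup_left
    have h4 : B.relIndex (B ⊔ A') = B.relIndex A' := Subgroup.relIndex_sup_left ..
    rw [← h3, h4]
    exact mul_ne_zero h1.index_ne_zero h2.index_ne_zero

end Pool.Agent.Biset
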