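import Pool.Agent.Lib.MP_98022b_ab.FI
import Pool.Agent.Lib.MP_98022b_vs.VS
import Pool.Agent.Lib.MP_98022b_vs.X1

/-!
# Subgroups of the same rank of finitely generated virtually solvable groups of finite rank
-/

set_option autoImplicit false

namespace Pool.Agent.Biset

namespace Desc

theorem relIndex_sup_ne {G : Type} [Group G] {H N : Subgroup G} (hN : N.Normal)
    (h : H.relIndex N ≠ 0) : H.relIndex (H ⊔ N) ≠ 0 := by
  have h1 : (H.subgroupOf N).FiniteIndex := ⟨h⟩
  have h2 : Finite (N ⧸ H.subgroupOf N) := inferInstance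
  let φ : N ⧸ H.subgroupOf N → ((H ⊔ N : Subgroup G) ⧸ H.subgroupOf (H ⊔ N)) :=
    Quotient.map' (Subgroup.inclusion le_sup_right) (by
      intro a b hab
      rw [QuotientGroup.leftRel_apply] at hab ⊢
      exact hab)
  have hφ : Function.Surjective φ := by
    intro y
    obtain ⟨⟨x, hx⟩, rfl⟩ := QuotientGroup.mk_surjective y
    have hx' : x ∈ ((N ⊔ H : Subgroup G) : Set G) := by
      rw [sup_comm]; exact hx
    rw [Subgroup.normal_mul] at hx'
    obtain ⟨n, hn, h, hh, rfl⟩ := hx'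
    refine ⟨((⟨n, hn⟩ : N) : N ⧸ H.subgroupOf N), ?_⟩
    show QuotientGroup.mk _ = _
    rw [QuotientGroup.eq]
    show (n⁻¹ * (n * h)) ∈ H
    rw [inv_mul_cancel_left]
    exact hh
  have h3 : Finite ((H ⊔ N : Subgroup G) ⧸ H.subgroupOf (H ⊔ N)) := Finite.of_surjective φ hφ
  have h4 : (H.subgroupOf (H ⊔ N)).FiniteIndex := Subgroup.finiteIndex_of_finite_quotient
  exact h4.index_ne_zero

theorem down {d : ℕ} : ∀ {A : Type} [Group A] (m : ℕ) (f : Fin d → (A →* Multiplicative ℚ))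
    (k : Fin d → A), (∀ i, f i (k i) ≠ 1) → (∀ i j, i ≠ j → f i (k j) = 1) → VS (m + d) A →
    ∀ Y : Subgroup A, (∀ y ∈ Y, ∀ i, f i y = 1) → VS m Y := by
  induction d with
  | zero =>
    intro A _ m f k _ _ h Y _
    exact h.of_injective Y.subtype Y.subtype_injective
  | succ d ih =>
    intro A _ m f k h1 h2 h Y hY
    set g := f (Fin.last d) with hg
    have hg1 : g ≠ 1 := by
      intro h0
      apply h1 (Fin.last d)
      rw [← hg, h0]; rfl
    have h3 : VS (m + d) g.ker := VS.ker h g hg1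
    have h4 := ih (A := g.ker) m (fun i => (f i.castSucc).comp g.ker.subtype)
      (fun i => ⟨k i.castSucc, h2 _ _ (Fin.castSucc_lt_last i).ne'⟩)
      (fun i => h1 i.castSucc)
      (fun i j hij => h2 _ _ (fun h5 => hij (Fin.castSucc_injective _ h5))) h3
      (Y.subgroupOf g.ker) (fun y hy i => hY _ hy i.castSucc)
    refine h4.of_injective
      { toFun := fun y => ⟨⟨(y : A), hY _ y.2 (Fin.last d)⟩, y.2⟩
        map_one' := rfl
        map_mul' := fun a b => rfl } ?_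
    intro a b hab
    have h7 : (a : A) = (b : A) :=
      congrArg (fun z : Y.subgroupOf g.ker => ((z : g.ker) : A)) hab
    exact Subtype.ext h7

theorem up {d : ℕ} : ∀ {A : Type} [Group A] (m : ℕ) (f : Fin d → (A →* Multiplicative ℚ))
    (Z : Subgroup A), VS m Z → (∀ a, (∀ i, f i a = 1) → a ∈ Z) → VS (m + d) A := by
  induction d with
  | zero =>
    intro A _ m f Z h hZ
    refine h.of_injective
      { toFun := fun y => ⟨y, hZ y (fun i => i.elim0)⟩
        map_one' := rfl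
        map_mul' := fun a b => rfl } ?_
    intro a b hab
    exact congrArg (fun z : Z => (z : A)) hab
  | succ d ih =>
    intro A _ m f Z h hZ
    set g := f (Fin.last d) with hg
    have h1 : VS m (Z.subgroupOf g.ker) := by
      refine h.of_injective
        { toFun := fun y => ⟨((y : g.ker) : A), y.2⟩
          map_one' := rfl
          map_mul' := fun a b => rfl } ?_
      intro a b hab
      exact Subtype.ext (Subtype.ext (congrArg (fun z : Z => (z : A)) hab))
    have h2 := ih (A := g.ker) m (fun i => (f i.castSucc).comp g.ker.subtype) (Z.subgroupOf g.ker)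
      h1 (by
        intro a ha
        refine hZ _ fun i => ?_
        refine Fin.lastCases ?_ (fun j => ?_) i
        · exact a.2
        · exact ha j)
    exact VS.succ_of_hom g h2

/-- The exponent of a finitely generated torsion module. -/
theorem exists_exponent {G W : Type} [Group G] [AddCommGroup W] [Module ℚ W]
    {ρ : G →* (W ≃ₗ[ℚ] W)} {ev : G → W} (hev : ∀ g x, ev (g * x * g⁻¹) = ρ g (ev x))
    (A K : Subgroup G) (hA : A.Normal) (hfg : (K ⊔ A).FG)
    (hadd : ∀ a ∈ A, ∀ b ∈ A, ev (a * b) = ev a + ev b)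
    (hspan : ∀ a ∈ A, ev a ∈ Submodule.span ℚ (ev '' ((K ⊓ A : Subgroup G) : Set G))) :
    ∃ m : ℕ, 0 < m ∧ ∀ a ∈ A, ∃ k ∈ K ⊓ A, ev k = (m : ℚ) • ev a := by
  classical
  have hev1 : ev 1 = 0 := by
    have := hadd 1 A.one_mem 1 A.one_mem
    rw [mul_one] at this
    exact left_eq_add.1 this
  have hinv : ∀ a ∈ A, ev a⁻¹ = -ev a := by
    intro a ha
    have := hadd a ha a⁻¹ (A.inv_mem ha)
    rw [mul_inv_cancel, hev1] at this
    exact (neg_eq_of_add_eq_zero_right this.symm).symm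
  let X : AddSubgroup W :=
    { carrier := {w | ∃ k ∈ K ⊓ A, ev k = w}
      zero_mem' := ⟨1, one_mem _, hev1⟩
      add_mem' := by
        rintro _ _ ⟨k, hk, rfl⟩ ⟨l, hl, rfl⟩
        exact ⟨k * l, mul_mem hk hl, hadd k hk.2 l hl.2⟩
      neg_mem' := by
        rintro _ ⟨k, hk, rfl⟩
        exact ⟨k⁻¹, inv_mem hk, hinv k hk.2⟩ }
  have hXK : ∀ g ∈ K, ∀ w ∈ X, ρ g w ∈ X := by
    rintro g hg _ ⟨k, hk, rfl⟩
    exact ⟨g * k * g⁻¹, ⟨K.mul_mem (K.mul_mem hg hk.1) (K.inv_mem hg), hA.conj_mem k hk.2 g⟩, hev g k⟩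
  have htor : ∀ w ∈ Submodule.span ℚ (ev '' ((K ⊓ A : Subgroup G) : Set G)),
      ∃ m : ℕ, 0 < m ∧ (m : ℚ) • w ∈ X := by
    intro w hw
    induction hw using Submodule.span_induction with
    | mem x hx =>
      obtain ⟨k, hk, rfl⟩ := hx
      exact ⟨1, one_pos, by rw [Nat.cast_one, one_smul]; exact ⟨k, hk, rfl⟩⟩
    | zero => exact ⟨1, one_pos, by rw [smul_zero]; exact X.zero_mem⟩
    | add x y _ _ hx hy =>
      obtain ⟨m, hm, h1⟩ := hx
      obtain ⟨l, hl, h2⟩ := hy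
      refine ⟨m * l, Nat.mul_pos hm hl, ?_⟩
      have h3 : ((m * l : ℕ) : ℚ) • (x + y) = l • ((m : ℚ) • x) + m • ((l : ℚ) • y) := by
        rw [smul_add, ← Nat.cast_smul_eq_nsmul ℚ, ← Nat.cast_smul_eq_nsmul ℚ, smul_smul, smul_smul,
          Nat.cast_mul, mul_comm (l : ℚ)]
      rw [h3]
      exact X.add_mem (X.nsmul_mem h1 l) (X.nsmul_mem h2 m)
    | smul q x _ hx =>
      obtain ⟨m, hm, h1⟩ := hx
      refine ⟨m * q.den, Nat.mul_pos hm q.den_pos, ?_⟩
      have h3 : ((m * q.den : ℕ) : ℚ) • (q • x) = q.num • ((m : ℚ) • x) := by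
        rw [← Int.cast_smul_eq_zsmul ℚ, smul_smul, smul_smul]
        congr 1
        rw [Nat.cast_mul, mul_assoc, Rat.den_mul_eq_num, mul_comm]
      rw [h3]
      exact X.zsmul_mem h1 _
  -- elements whose `m`-th multiple is in `X`
  let Q : ℕ → Subgroup G := fun m =>
    { carrier := {g | ∃ k ∈ K, ∃ b ∈ A, (m : ℚ) • ev b ∈ X ∧ g = k * b}
      one_mem' := ⟨1, one_mem _, 1, one_mem _, by rw [hev1, smul_zero]; exact X.zero_mem, by simp⟩
      mul_mem' := by
        rintro _ _ ⟨k, hk, b, hb, hb', rfl⟩ ⟨l, hl, c, hc, hc', rfl⟩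
        have h1 : l⁻¹ * b * l⁻¹⁻¹ ∈ A := hA.conj_mem b hb l⁻¹
        refine ⟨k * l, mul_mem hk hl, (l⁻¹ * b * l⁻¹⁻¹) * c, mul_mem h1 hc, ?_, by group⟩
        rw [hadd _ h1 _ hc, smul_add, hev, ← map_smul]
        exact X.add_mem (hXK _ (K.inv_mem hl) _ hb') hc'
      inv_mem' := by
        rintro _ ⟨k, hk, b, hb, hb', rfl⟩
        have h1 : k * b⁻¹ * k⁻¹ ∈ A := hA.conj_mem _ (A.inv_mem hb) k
        refine ⟨k⁻¹, inv_mem hk, k * b⁻¹ * k⁻¹, h1, ?_, by group⟩
        rw [hev, ← map_smul, hinv b hb, smul_neg]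
        exact hXK _ hk _ (X.neg_mem hb') }
  obtain ⟨S, hS⟩ := hfg
  have hdec : ∀ s : G, ∃ m : ℕ, 0 < m ∧ (s ∈ S → s ∈ Q m) := by
    intro s
    by_cases hsS : s ∈ S
    swap
    · exact ⟨1, one_pos, fun h => absurd h hsS⟩
    have hs : s ∈ ((K ⊔ A : Subgroup G) : Set G) := by
      rw [← hS]; exact Subgroup.subset_closure hsS
    rw [Subgroup.mul_normal] at hs
    obtain ⟨k, hk, a, ha, rfl⟩ := hs
    obtain ⟨m, hm, h1⟩ := htor _ (hspan a ha)
    exact ⟨m, hm, fun _ => ⟨k, hk, a, ha, h1, rfl⟩⟩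
  choose e he1 he2 using hdec
  set m := ∏ s ∈ S, e s with hm
  have hm0 : 0 < m := Finset.prod_pos fun s _ => he1 s
  refine ⟨m, hm0, fun a ha => ?_⟩
  have hQ : K ⊔ A ≤ Q m := by
    rw [← hS, Subgroup.closure_le]
    intro s hs
    obtain ⟨k, hk, b, hb, hb', h1⟩ := he2 s hs
    obtain ⟨l, hl⟩ : e s ∣ m := Finset.dvd_prod_of_mem _ hs
    refine ⟨k, hk, b, hb, ?_, h1⟩
    rw [hl, Nat.cast_mul, mul_comm, mul_smul, Nat.cast_smul_eq_nsmul]
    exact X.nsmul_mem hb' l
  have h1 : a ∈ Q m := hQ (Subgroup.mem_sup_right ha)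
  obtain ⟨k, hk, b, hb, hb', h2⟩ := h1
  have h3 : k ∈ A := by
    have : k = a * b⁻¹ := by rw [h2]; group
    rw [this]
    exact mul_mem ha (inv_mem hb)
  have h4 : (m : ℚ) • ev a ∈ X := by
    rw [h2, hadd k h3 b hb, smul_add, Nat.cast_smul_eq_nsmul]
    exact X.add_mem (X.nsmul_mem ⟨k, ⟨hk, h3⟩, rfl⟩ m) hb'
  exact h4

theorem fg_of_relIndex {G : Type} [Group G] {H L : Subgroup G} (hHL : H ≤ L) (hL : L.FG)
    (h : H.relIndex L ≠ 0) : H.FG := by
  have h1 : Group.FG L := (Group.fg_iff_subgroup_fg L).2 hL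
  have h2 : (H.subgroupOf L).FiniteIndex := ⟨h⟩
  have h3 : Group.FG (H.subgroupOf L) := inferInstance
  have h4 : Group.FG H := Group.fg_of_surjective
    (f := (Subgroup.subgroupOfEquivOfLe hHL).toMonoidHom) (Subgroup.subgroupOfEquivOfLe hHL).surjective
  exact (Group.fg_iff_subgroup_fg H).1 h4

theorem cmd_normal {G : Type} [Group G] {A : Subgroup G} (hA : A.Normal) : Cmd A := by
  intro g
  have h1 : A.map (MulAut.conj g).toMonoidHom = A := by
    ext x
    constructor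
    · rintro ⟨y, hy, rfl⟩
      exact hA.conj_mem y hy g
    · intro hx
      refine ⟨g⁻¹ * x * g⁻¹⁻¹, hA.conj_mem x hx g⁻¹, ?_⟩
      show g * (g⁻¹ * x * g⁻¹⁻¹) * g⁻¹ = x
      group
  rw [h1]
  exact ⟨by simp, by simp⟩

/-- Subgroups of full rank, relative form. -/
theorem rel (n : ℕ) : ∀ {G : Type} [Group G] (A K : Subgroup G), A.Normal → (K ⊔ A).FG →
    VS n A → (∀ m, VS m (K ⊓ A : Subgroup G) → VS m A) → (K ⊓ A).relIndex A ≠ 0 := by
  induction n using Nat.strong_induction_on with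
  | _ n ih =>
  intro G _ A K hA hfg hn hfull
  classical
  by_cases hfin : Finite A
  · exact Subgroup.FiniteIndex.index_ne_zero
  obtain ⟨r, hrn, hr, hr'⟩ : ∃ r, r < n ∧ VS (r + 1) A ∧ ¬ VS r A := by
    have h1 : ∃ k, VS k A := ⟨n, hn⟩
    have h2 := Nat.find_spec h1
    have h3 : Nat.find h1 ≤ n := Nat.find_min' h1 hn
    have h4 : Nat.find h1 ≠ 0 := by
      intro h0
      rw [h0] at h2
      exact hfin h2
    obtain ⟨r, h5⟩ := Nat.exists_eq_succ_of_ne_zero h4
    refine ⟨r, by omega, ?_, ?_⟩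
    · rw [h5] at h2
      exact h2
    · exact Nat.find_min h1 (by omega)
  have hfd : FiniteDimensional ℚ (Es A) := Es.finiteDimensional_vs hr
  obtain ⟨ρ, ev, hev0, -, hev, ⟨K0, hK0A, hK0i, hK0ρ, hK0a⟩, -⟩ := exists_rep (cmd_normal hA)
  have hpow : ∀ x (m : ℕ), ev (x ^ m) = (m : ℚ) • ev x := by
    intro x m
    ext f
    rw [hev0, LinearMap.smul_apply, hev0, smul_eq_mul]
    have := f.2.2.1 x (m : ℤ)
    rw [zpow_natCast] at this
    exact_mod_cast this
  -- the subgroup `A₁`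
  set A₁ : Subgroup G := A ⊓ ρ.ker with hA₁
  have hA₁n : A₁.Normal := inferInstance
  have hA₁A : A₁ ≤ A := inf_le_left
  have hK0A₁ : K0 ≤ A₁ := fun k hk => ⟨hK0A hk, hK0ρ k hk⟩
  have hA₁i : A₁.relIndex A ≠ 0 := fun h0 =>
    hK0i (Nat.eq_zero_of_zero_dvd (h0 ▸ Subgroup.relIndex_dvd_of_le_left A hK0A₁))
  have hK0i₁ : K0.relIndex A₁ ≠ 0 := fun h0 =>
    hK0i (Subgroup.relIndex_eq_zero_of_le_right hA₁A h0)
  have hadd : ∀ a ∈ A₁, ∀ b ∈ A₁, ev (a * b) = ev a + ev b := by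
    obtain ⟨b, hb, K', hK', hK'i, hK'e⟩ := exists_coc hev hK0i₁ hK0ρ hK0a
    have hbadd : ∀ x ∈ A₁, ∀ y ∈ A₁, b (x * y) = b x + b y := by
      intro x hx y hy
      rw [hb x hx y hy, hx.2]
      rfl
    have hbpow : ∀ x ∈ A₁, ∀ m : ℕ, b (x ^ m) = (m : ℚ) • b x := by
      intro x hx m
      induction m with
      | zero =>
        have h1 := hbadd 1 A₁.one_mem 1 A₁.one_mem
        rw [mul_one] at h1
        rw [pow_zero, Nat.cast_zero, zero_smul]
        exact left_eq_add.1 h1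
      | succ m ihm =>
        rw [pow_succ, hbadd _ (A₁.pow_mem hx m) _ hx, ihm, Nat.cast_succ, add_smul, one_smul]
    have hbe : ∀ x ∈ A₁, b x = ev x := by
      intro x hx
      obtain ⟨m, hm, hxm⟩ := exists_pow_mem_of_relIndex hK'i hx
      have h1 := hK'e _ hxm
      rw [hbpow x hx, hpow] at h1
      have h2 : (m : ℚ) ≠ 0 := by exact_mod_cast hm.ne'
      exact smul_right_injective _ h2 h1
    intro a ha c hc
    rw [← hbe _ (A₁.mul_mem ha hc), hbadd a ha c hc, hbe a ha, hbe c hc]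
  have hev1 : ev 1 = 0 := by
    have := hadd 1 A₁.one_mem 1 A₁.one_mem
    rw [mul_one] at this
    exact left_eq_add.1 this
  have hinv : ∀ a ∈ A₁, ev a⁻¹ = -ev a := by
    intro a ha
    have := hadd a ha a⁻¹ (A₁.inv_mem ha)
    rw [mul_inv_cancel, hev1] at this
    exact (neg_eq_of_add_eq_zero_right this.symm).symm
  -- the image of `K ⊓ A₁` spans
  have hspan : Submodule.span ℚ (ev '' ((K ⊓ A₁ : Subgroup G) : Set G)) = ⊤ := by
    by_contra hne
    obtain ⟨φ, hφ, hφ'⟩ := Submodule.exists_le_ker_of_lt_top _ (lt_top_iff_ne_top.2 hne)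
    obtain ⟨f, rfl⟩ := (Module.evalEquiv ℚ (Es A)).surjective φ
    have hf0 : f.1 ≠ 0 := by
      intro h0
      apply hφ
      have : f = 0 := Subtype.ext h0
      rw [this, map_zero]
    apply hr'
    apply hfull
    refine VS.of_Es hr f.2 hf0 (Y := K ⊓ A) (L := A₁) inf_le_right ?_ ?_
    · exact fun h0 => hA₁i (Subgroup.relIndex_eq_zero_of_le_right inf_le_right h0)
    · intro y hy hy'
      have h1 : ev y ∈ LinearMap.ker (Module.evalEquiv ℚ (Es A) f) :=
        hφ' (Submodule.subset_span ⟨y, ⟨hy'.1, hy⟩, rfl⟩)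
      rw [LinearMap.mem_ker] at h1
      rw [← hev0]
      exact h1
  -- a basis
  obtain ⟨d, B, hB⟩ : ∃ (d : ℕ) (B : Module.Basis (Fin d) ℚ (Module.Dual ℚ (Es A))),
      ∀ i, B i ∈ ev '' ((K ⊓ A₁ : Subgroup G) : Set G) := by
    let B₀ := Module.Basis.ofSpan (K := ℚ) hspan.ge
    have h1 : Finite _ := Module.Finite.finite_basis B₀
    obtain ⟨d, ⟨e⟩⟩ := Finite.exists_equiv_fin
      (((linearIndepOn_empty ℚ (id : Module.Dual ℚ (Es A) → Module.Dual ℚ (Es A))).extend
        (Set.empty_subset (ev '' ((K ⊓ A₁ : Subgroup G) : Set G)))) : Type _)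
    refine ⟨d, B₀.reindex e, fun i => ?_⟩
    rw [Module.Basis.reindex_apply]
    exact Module.Basis.ofSpan_subset hspan.ge ⟨_, rfl⟩
  choose k hk hkB using hB
  let f : Fin d → (A₁ →* Multiplicative ℚ) := fun i =>
    { toFun := fun a => Multiplicative.ofAdd (B.coord i (ev a))
      map_one' := by
        show Multiplicative.ofAdd (B.coord i (ev 1)) = 1
        rw [hev1, map_zero]; rfl
      map_mul' := fun a b => by
        show Multiplicative.ofAdd (B.coord i (ev (a * b))) = _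
        rw [hadd a a.2 b b.2, map_add, ofAdd_add] }
  have hf0 : ∀ a : A₁, (∀ i, f i a = 1) → ev a = 0 := by
    intro a ha
    apply B.repr.injective
    ext i
    have h1 : B.coord i (ev a) = 0 := ha i
    rw [map_zero, Finsupp.zero_apply]
    exact h1
  -- the kernel `A₀`
  let A₀ : Subgroup G :=
    { carrier := {a | a ∈ A₁ ∧ ev a = 0}
      one_mem' := ⟨one_mem _, hev1⟩
      mul_mem' := by
        rintro a b ⟨ha, ha'⟩ ⟨hb, hb'⟩
        exact ⟨mul_mem ha hb, by rw [hadd a ha b hb, ha', hb', add_zero]⟩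
      inv_mem' := by
        rintro a ⟨ha, ha'⟩
        exact ⟨inv_mem ha, by rw [hinv a ha, ha', neg_zero]⟩ }
  have hA₀A₁ : A₀ ≤ A₁ := fun a ha => ha.1
  have hA₀n : A₀.Normal := ⟨fun a ha g => ⟨hA₁n.conj_mem a ha.1 g, by rw [hev, ha.2, map_zero]⟩⟩
  have hVA₀ : VS r A₀ := by
    obtain ⟨g, hg, hg0⟩ := hr.exists_VH hr'
    obtain ⟨g', hg', hgg⟩ := Es.exists_of_VH g hg
    refine VS.of_Es hr hg' ?_ (Y := A₀) (L := A₀) (hA₀A₁.trans hA₁A) (by simp) ?_
    · intro h0
      apply hg0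
      funext b
      rw [← hgg, h0]
      rfl
    · intro y hy _
      have h1 : ev y = 0 := hy.2
      have h2 := hev0 y ⟨g', hg'⟩
      rw [h1] at h2
      exact h2.symm
  -- the product of `K ⊓ A₁` and `A₀`
  let B' : Subgroup G :=
    { carrier := {a | a ∈ A₁ ∧ ∃ k ∈ K ⊓ A₁, ev k = ev a}
      one_mem' := ⟨one_mem _, 1, one_mem _, rfl⟩
      mul_mem' := by
        rintro a b ⟨ha, k, hk, hk'⟩ ⟨hb, l, hl, hl'⟩
        exact ⟨mul_mem ha hb, k * l, mul_mem hk hl, by
          rw [hadd a ha b hb, hadd k hk.2 l hl.2, hk', hl']⟩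
      inv_mem' := by
        rintro a ⟨ha, k, hk, hk'⟩
        exact ⟨A₁.inv_mem ha, k⁻¹, (K ⊓ A₁).inv_mem hk, by rw [hinv a ha, hinv k hk.2, hk']⟩ }
  have hB'A₁ : B' ≤ A₁ := fun a ha => ha.1
  have hB'i : B'.relIndex A₁ ≠ 0 := by
    have hfg₁ : (K ⊔ A₁).FG := by
      refine fg_of_relIndex (sup_le_sup_left hA₁A K) hfg ?_
      have h1 : (K ⊔ A₁).relIndex A ≠ 0 := fun h0 => hA₁i (Nat.eq_zero_of_zero_dvd
        (h0 ▸ Subgroup.relIndex_dvd_of_le_left A (le_sup_right : A₁ ≤ K ⊔ A₁)))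
      have h2 := relIndex_sup_ne hA h1
      rwa [sup_assoc, sup_eq_right.2 hA₁A] at h2
    obtain ⟨m, hm, h1⟩ := exists_exponent hev A₁ K hA₁n hfg₁ hadd
      (fun a _ => by rw [hspan]; trivial)
    have h2 := finIdx_of_homs f (B'.subgroupOf A₁) (by
      intro a ha
      exact ⟨a.2, 1, one_mem _, by rw [hev1]; exact (hf0 a ha).symm⟩) m hm (by
      intro a
      obtain ⟨k, hk, hk'⟩ := h1 a a.2
      exact ⟨(a ^ m).2, k, hk, by rw [hk', ← hpow]; rfl⟩)
    exact h2.index_ne_zero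
  have hfg₀ : (K ⊔ A₀).FG := by
    refine fg_of_relIndex (sup_le_sup_left (hA₀A₁.trans hA₁A) K) hfg ?_
    have h1 : B' ≤ K ⊔ A₀ := by
      rintro b ⟨hb, k, hk, hk'⟩
      have h2 : b = k * (k⁻¹ * b) := by group
      rw [h2]
      refine mul_mem (Subgroup.mem_sup_left hk.1) (Subgroup.mem_sup_right ?_)
      refine ⟨mul_mem (inv_mem hk.2) hb, ?_⟩
      rw [hadd _ (inv_mem hk.2) _ hb, hinv k hk.2, hk', neg_add_cancel]
    have h2 : (K ⊔ A₀).relIndex A₁ ≠ 0 := fun h0 =>
      hB'i (Nat.eq_zero_of_zero_dvd (h0 ▸ Subgroup.relIndex_dvd_of_le_left A₁ h1))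
    have h3 : (K ⊔ A₀).relIndex A ≠ 0 := by
      intro h0
      have h4 : (A₁ ⊓ (K ⊔ A₀)).relIndex A₁ ≠ 0 := by
        rw [Subgroup.inf_relIndex_left]
        exact h2
      have h5 := Subgroup.relIndex_ne_zero_trans h4 hA₁i
      exact h5 (Nat.eq_zero_of_zero_dvd (h0 ▸ Subgroup.relIndex_dvd_of_le_left A inf_le_right))
    have h4 := relIndex_sup_ne hA h3
    rwa [sup_assoc, sup_eq_right.2 (hA₀A₁.trans hA₁A)] at h4
  -- the smaller rank
  have hKA₀ : (K ⊓ A₀).relIndex A₀ ≠ 0 := by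
    refine ih r hrn A₀ K hA₀n hfg₀ hVA₀ ?_
    intro m hm
    have h1 : VS (m + d) (K ⊓ A₁ : Subgroup G) := by
      refine up m (fun i => (f i).comp (Subgroup.inclusion inf_le_right))
        ((K ⊓ A₀).subgroupOf (K ⊓ A₁)) ?_ ?_
      · exact hm.of_injective (Subgroup.subgroupOfEquivOfLe
          (inf_le_inf_left K hA₀A₁)).toMonoidHom (Subgroup.subgroupOfEquivOfLe
          (inf_le_inf_left K hA₀A₁)).injective
      · intro a ha
        exact ⟨a.2.1, a.2.2, hf0 ⟨a, a.2.2⟩ ha⟩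
    have h2 : VS (m + d) (K ⊓ A : Subgroup G) := by
      refine VS.of_finiteIndex ((K ⊓ A₁).subgroupOf (K ⊓ A)) ⟨?_⟩ ?_
      · have h3 : A₁.relIndex (K ⊓ A) ≠ 0 := fun h0 =>
          hA₁i (Subgroup.relIndex_eq_zero_of_le_right inf_le_right h0)
        have h4 : (K ⊓ A₁).relIndex (K ⊓ A) = A₁.relIndex (K ⊓ A) := by
          rw [← Subgroup.inf_relIndex_right (K ⊓ A₁), ← Subgroup.inf_relIndex_right A₁]
          congr 1
          ext x
          simp only [Subgroup.mem_inf]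
          tauto
        rw [← h4] at h3
        exact h3
      · exact h1.of_injective (Subgroup.subgroupOfEquivOfLe
          (inf_le_inf_left K hA₁A)).toMonoidHom (Subgroup.subgroupOfEquivOfLe
          (inf_le_inf_left K hA₁A)).injective
    have h3 : VS (m + d) A₁ := (hfull _ h2).of_injective (Subgroup.inclusion hA₁A)
      (Subgroup.inclusion_injective hA₁A)
    have h4 := down m f (fun i => ⟨k i, (hk i).2⟩) (by
      intro i h0
      have h5 : B.coord i (ev (k i)) = 0 := h0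
      rw [hkB, Module.Basis.coord_apply, Module.Basis.repr_self, Finsupp.single_eq_same] at h5
      exact one_ne_zero h5) (by
      intro i j hij
      have h5 : B.coord i (ev (k j)) = 0 := by
        rw [hkB, Module.Basis.coord_apply, Module.Basis.repr_self,
          Finsupp.single_eq_of_ne (by exact hij)]
      show Multiplicative.ofAdd (B.coord i (ev (k j))) = 1
      rw [h5]; rfl) h3 (A₀.subgroupOf A₁) (by
      intro y hy i
      have h5 : ev (y : G) = 0 := hy.2
      show Multiplicative.ofAdd (B.coord i (ev (y : G))) = 1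
      rw [h5, map_zero]; rfl)
    exact h4.of_injective (Subgroup.subgroupOfEquivOfLe hA₀A₁).symm.toMonoidHom
      (Subgroup.subgroupOfEquivOfLe hA₀A₁).symm.injective
  have h1 : (K ⊓ A₁).relIndex A₀ ≠ 0 := fun h0 => hKA₀ (Nat.eq_zero_of_zero_dvd
    (Subgroup.relIndex_dvd_of_le_left A₀ (inf_le_inf_left K hA₀A₁) |> fun h => by
      rw [h0] at h; exact h))
  have h2 : (K ⊓ A₁).relIndex B' ≠ 0 := by
    have h3 := relIndex_sup_ne hA₀n h1
    have h4 : K ⊓ A₁ ⊔ A₀ = B' := by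
      apply le_antisymm
      · refine sup_le ?_ ?_
        · intro x hx
          exact ⟨hx.2, x, hx, rfl⟩
        · intro x hx
          exact ⟨hx.1, 1, one_mem _, by rw [hev1, hx.2]⟩
      · rintro b ⟨hb, k, hk, hk'⟩
        have h2 : b = k * (k⁻¹ * b) := by group
        rw [h2]
        refine mul_mem (Subgroup.mem_sup_left hk) (Subgroup.mem_sup_right ?_)
        refine ⟨mul_mem (inv_mem hk.2) hb, ?_⟩
        rw [hadd _ (inv_mem hk.2) _ hb, hinv k hk.2, hk', neg_add_cancel]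
    rwa [h4] at h3
  have h3 := Subgroup.relIndex_ne_zero_trans (Subgroup.relIndex_ne_zero_trans h2 hB'i) hA₁i
  exact fun h0 => h3 (Nat.eq_zero_of_zero_dvd
    (h0 ▸ Subgroup.relIndex_dvd_of_le_left A (inf_le_inf_left K hA₁A)))

/-- A subgroup of a finitely generated virtually solvable group of finite rank has finite index or
smaller rank. -/
theorem fgi {n : ℕ} {G : Type} [Group G] (hfg : Group.FG G) (h : VS (n + 1) G) (K : Subgroup G) :
    K.FiniteIndex ∨ VS n K := by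
  by_cases hK : VS n K
  · exact Or.inr hK
  left
  have h1 := rel (n + 1) (⊤ : Subgroup G) K inferInstance (by
    rw [sup_top_eq]; exact (Group.fg_def.1 hfg)) (h.of_injective _ (⊤ : Subgroup G).subtype_injective)
    (by
      intro m hm
      have h2 : n + 1 ≤ m := by
        by_contra hlt
        apply hK
        refine VS.mono (show m ≤ n by omega) (hm.of_injective
          (Subgroup.inclusion (le_inf le_rfl le_top)) (Subgroup.inclusion_injective _))
      exact VS.mono h2 (h.of_injective _ (⊤ : Subgroup G).subtype_injective))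
  refine ⟨?_⟩
  rw [inf_top_eq, Subgroup.relIndex_top_right] at h1
  exact h1

end Desc

end Pool.Agent.Biset
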