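import Pool.Agent.Lib.MP_98022b_ab.FI
import Pool.Agent.Lib.MP_98022b_vs.VS

/-!
# Groups acting on trees with commensurable virtually solvable stabilizers of finite rank
-/

set_option autoImplicit false

namespace Pool.Agent.Biset

open MulAction Pool.Agent.FJ

variable {P : ∀ (G : Type) [Group G], Prop}

/-- The statement for rank at most `n`. -/
def FIS (P : ∀ (G : Type) [Group G], Prop) (n : ℕ) : Prop :=
  ∀ {M V : Type} [Group M] [MulAction M V] {T : SimpleGraph V}, T.IsTree → TreeCl.Inv M T →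
    TreeCl.NoInv M T → TorsionFree M → (∀ v : V, VS n (stabilizer M v)) →
    (∀ u v : V, T.Adj u v → (stabilizer M u).relIndex (stabilizer M v) ≠ 0) → P M

theorem fis_zero (hP : IsFJClass P) : FIS P 0 := by
  intro M V _ _ T hT hadj hinv htf hV hc
  exact fi_zero hP hT hadj hinv htf hV hc

namespace FISaux

theorem zpow_mul_ne {c : Multiplicative ℤ} {b : ℤ} (hc : c ≠ 1) (h : c ^ b = 1) : b = 0 := by
  have h1 : b * Multiplicative.toAdd c = 0 := by
    have h2 := congrArg Multiplicative.toAdd h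
    rw [toAdd_zpow, toAdd_one, smul_eq_mul] at h2
    exact h2
  rcases mul_eq_zero.1 h1 with h2 | h2
  · exact h2
  · exact absurd (Multiplicative.toAdd.injective h2) hc

section

variable {M V : Type} [Group M] [MulAction M V]

theorem stab_sub (M' : Subgroup M) (v : V) :
    stabilizer M' v = (stabilizer M v).subgroupOf M' := Subgroup.ext fun _ => Iff.rfl

/-- The stabilizer in a subgroup, as a subgroup of the big group. -/
theorem vs_stab {n : ℕ} (M' : Subgroup M) (v : V) (h : VS n (M' ⊓ stabilizer M v : Subgroup M)) :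
    VS n (stabilizer M' v) := by
  refine h.of_injective
    { toFun := fun x => ⟨((x : M') : M), (x : M').2, x.2⟩
      map_one' := rfl
      map_mul' := fun a b => rfl } ?_
  intro a b hab
  have h1 : ((a : M') : M) = ((b : M') : M) :=
    congrArg (fun z : (M' ⊓ stabilizer M v : Subgroup M) => (z : M)) hab
  exact Subtype.ext (Subtype.ext h1)

theorem hall_sub (hall : ∀ u v : V, (stabilizer M u).relIndex (stabilizer M v) ≠ 0)
    (M' : Subgroup M) (u v : V) : (stabilizer M' u).relIndex (stabilizer M' v) ≠ 0 := by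
  rw [stab_sub, stab_sub, ← Subgroup.inf_subgroupOf_right (stabilizer M u),
    ← Subgroup.inf_subgroupOf_right (stabilizer M v), Subgroup.relIndex_subgroupOf inf_le_right]
  exact relIndex_inf_ne (hall u v) M'

theorem vs_comm {n : ℕ} {M : Type} [Group M] {A B : Subgroup M} (h : A.relIndex B ≠ 0)
    (hA : VS n A) : VS n B := by
  refine VS.of_finiteIndex (A.subgroupOf B) ⟨h⟩ ?_
  refine hA.of_injective
    { toFun := fun x => ⟨((x : B) : M), x.2⟩
      map_one' := rfl
      map_mul' := fun a b => rfl } ?_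
  intro a b hab
  have h1 : (((a : B)) : M) = ((b : B) : M) := congrArg (fun z : A => (z : M)) hab
  exact Subtype.ext (Subtype.ext h1)

theorem vs_le {n : ℕ} {M : Type} [Group M] {A B : Subgroup M} (h : A ≤ B) (hB : VS n B) :
    VS n A := hB.of_injective (Subgroup.inclusion h) (Subgroup.inclusion_injective h)

theorem aff_one_zpow {W : Type} [AddCommGroup W] [Module ℚ W] (u : W) (b : ℤ) :
    (aff (1 : W ≃ₗ[ℚ] W) u) ^ b = aff 1 (b • u) := by
  have h : tau W (Multiplicative.ofAdd u ^ b) = tau W (Multiplicative.ofAdd u) ^ b :=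
    map_zpow _ _ _
  exact h.symm

theorem aff_one_inj {W : Type} [AddCommGroup W] [Module ℚ W] {u v : W}
    (h : aff (1 : W ≃ₗ[ℚ] W) u = aff 1 v) : u = v := by
  have h1 : tau W (Multiplicative.ofAdd u) = tau W (Multiplicative.ofAdd v) := h
  exact Multiplicative.ofAdd.injective (tau_injective h1)

theorem aff_one_zero {W : Type} [AddCommGroup W] [Module ℚ W] :
    aff (1 : W ≃ₗ[ℚ] W) 0 = 1 := by
  have h : tau W 1 = 1 := map_one _
  exact h

end

end FISaux

open FISaux

/-- The first step: the affine representation on the dual space of the virtual homomorphisms. -/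
theorem exists_Phi' {n : ℕ} {M V : Type} [Group M] [MulAction M V] {T : SimpleGraph V}
    (hT : T.IsTree) (hadj : TreeCl.Inv M T) (hinv : TreeCl.NoInv M T)
    (hV : ∀ v : V, VS n (stabilizer M v))
    (hc : ∀ u v : V, (stabilizer M u).relIndex (stabilizer M v) ≠ 0) (v0 : V) :
    ∃ (ev : M → Module.Dual ℚ (Es (stabilizer M v0))),
      (∀ x (f : Es (stabilizer M v0)), ev x f = f.1 x) ∧
      ∃ Φ : M →* ((Module.Dual ℚ (Es (stabilizer M v0)) × ℚ) ≃ₗ[ℚ]
        (Module.Dual ℚ (Es (stabilizer M v0)) × ℚ)), ∀ v : V, ∃ K' : Subgroup M,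
          K'.relIndex (stabilizer M v) ≠ 0 ∧
          ∀ k ∈ K', k ∈ stabilizer M v → Φ k = aff 1 (ev k) := by
  have hfd : FiniteDimensional ℚ (Es (stabilizer M v0)) := Es.finiteDimensional_vs (hV v0)
  have hcmd : Cmd (stabilizer M v0) := by
    have := cmd_stab hc ⊤ v0
    rwa [inf_top_eq] at this
  obtain ⟨ρ, ev, hev1, -, hev, ⟨K, hKB, hKi, hKρ, hKa⟩, -⟩ := exists_rep hcmd
  have hker : ∀ v : V, stabilizer M v ⊓ (1 : M →* Multiplicative ℤ).ker = stabilizer M v := by
    intro v
    rw [MonoidHom.ker_one, inf_top_eq]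
  obtain ⟨Φ, hΦ⟩ := exists_Phi hT hadj hinv hev (1 : M →* Multiplicative ℤ) (K := K)
    (fun v => by
      rw [hker]
      exact Subgroup.relIndex_ne_zero_trans hKi (hc v0 v)) hKρ hKa
    (fun v x _ hx => absurd rfl hx)
  refine ⟨ev, hev1, Φ, fun v => ?_⟩
  obtain ⟨K', -, hK2, hK3⟩ := hΦ v
  rw [hker] at hK2
  exact ⟨K', hK2, fun k hk hk' => hK3 k hk hk' rfl⟩

/-- Two independent virtual homomorphisms. -/
theorem fis_two (hP : IsFJClass P) (hGL : ∀ m : ℕ, P (Matrix.GeneralLinearGroup (Fin m) ℚ))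
    {n : ℕ} (ih : FIS P n) {M V : Type} [Group M] [MulAction M V] {T : SimpleGraph V}
    (hT : T.IsTree) (hadj : TreeCl.Inv M T) (hinv : TreeCl.NoInv M T) (htf : TorsionFree M)
    (hV : ∀ v : V, VS (n + 1) (stabilizer M v))
    (hc : ∀ u v : V, (stabilizer M u).relIndex (stabilizer M v) ≠ 0) (v0 : V)
    {f g : M → ℚ} (hf : f ∈ Es (stabilizer M v0)) (hg : g ∈ Es (stabilizer M v0))
    (hfg : ∀ a b : ℚ, a • f + b • g = 0 → a = 0 ∧ b = 0) : P M := by
  obtain ⟨ev, hev1, Φ, hΦ⟩ := exists_Phi' hT hadj hinv hV hc v0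
  have hfd : FiniteDimensional ℚ (Es (stabilizer M v0)) := Es.finiteDimensional_vs (hV v0)
  refine hP.extension Φ (linearEquiv_mem hP hGL _) fun q => ?_
  set M' : Subgroup M := (Subgroup.zpowers q).comap Φ with hM'
  refine ih (M := M') (T := T) hT (fun g u v h => hadj (g : M) u v h)
    (fun g u v h h1 h2 => hinv (g : M) u v h h1 h2)
    (TorsionFree.of_injective M'.subtype M'.subtype_injective htf) (fun v => ?_)
    (fun u v _ => hall_sub hc M' u v)
  refine vs_stab M' v ?_
  obtain ⟨K', hK2, hK3⟩ := hΦ v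
  have hEs : Es (stabilizer M v0) = Es (stabilizer M v) := Es.congr (hc v0 v) (hc v v0)
  have hf0 : f ≠ 0 := by
    intro h0
    have := (hfg 1 0 (by rw [h0]; simp)).1
    exact one_ne_zero this
  have hL : K'.relIndex (M' ⊓ stabilizer M v) ≠ 0 := fun h0 =>
    hK2 (Subgroup.relIndex_eq_zero_of_le_right inf_le_right h0)
  by_cases h0 : ∀ k ∈ K', k ∈ M' ⊓ stabilizer M v → ev k = 0
  · refine VS.of_Es (hV v) (f := f) (hEs ▸ hf) hf0 inf_le_right hL fun k hk hk' => ?_
    have h1 := hev1 k ⟨f, hf⟩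
    rw [h0 k hk hk'] at h1
    exact h1.symm
  · push Not at h0
    obtain ⟨k₀, hk₀, hk₀', hw⟩ := h0
    -- a virtual homomorphism that kills `k₀`
    obtain ⟨e, he, he0, hek⟩ : ∃ e ∈ Es (stabilizer M v0), e ≠ 0 ∧ e k₀ = 0 := by
      by_cases h1 : f k₀ = 0
      · exact ⟨f, hf, hf0, h1⟩
      · refine ⟨(g k₀) • f + (-(f k₀)) • g,
          (Es _).add_mem ((Es _).smul_mem _ hf) ((Es _).smul_mem _ hg), ?_, ?_⟩
        · intro h2
          have h3 := (hfg _ _ h2).2
          exact h1 (neg_eq_zero.1 h3)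
        · simp only [Pi.add_apply, Pi.smul_apply, smul_eq_mul]
          ring
    refine VS.of_Es (hV v) (f := e) (hEs ▸ he) he0 inf_le_right hL fun k hk hk' => ?_
    obtain ⟨a, ha⟩ := hk₀'.1
    obtain ⟨b, hb⟩ := hk'.1
    have ha' : q ^ a = aff 1 (ev k₀) := by
      rw [← hK3 k₀ hk₀ hk₀'.2]; exact ha
    have hb' : q ^ b = aff 1 (ev k) := by
      rw [← hK3 k hk hk'.2]; exact hb
    have ha0 : a ≠ 0 := by
      intro h1
      rw [h1, zpow_zero, ← aff_one_zero] at ha'
      exact hw (aff_one_inj ha').symm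
    have h2 : (a : ℤ) • ev k = (b : ℤ) • ev k₀ := by
      apply aff_one_inj
      rw [← aff_one_zpow, ← aff_one_zpow, ← ha', ← hb', ← zpow_mul, ← zpow_mul, mul_comm]
    have h3 := congrArg (fun φ : Module.Dual ℚ (Es (stabilizer M v0)) => φ ⟨e, he⟩) h2
    simp only [LinearMap.smul_apply, hev1] at h3
    rw [hek, smul_zero, zsmul_eq_mul, mul_eq_zero] at h3
    rcases h3 with h3 | h3
    · exact absurd (by exact_mod_cast h3) ha0
    · exact h3

/-- The case of a homomorphism to the integers whose kernel is killed by the virtual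
homomorphisms. -/
theorem fis_bad (hP : IsFJClass P) (hGL : ∀ m : ℕ, P (Matrix.GeneralLinearGroup (Fin m) ℚ))
    {n : ℕ} (ih : FIS P n) {M V : Type} [Group M] [MulAction M V] {T : SimpleGraph V}
    (hT : T.IsTree) (hadj : TreeCl.Inv M T) (hinv : TreeCl.NoInv M T) (htf : TorsionFree M)
    (hV : ∀ v : V, VS (n + 1) (stabilizer M v))
    (hc : ∀ u v : V, (stabilizer M u).relIndex (stabilizer M v) ≠ 0)
    (lam : M →* Multiplicative ℤ) (hl : ∀ v : V, ∃ x ∈ stabilizer M v, lam x ≠ 1)
    (hB : ∀ v : V, ∀ f ∈ Es (stabilizer M v), ∀ x ∈ stabilizer M v, lam x = 1 → f x = 0) :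
    P M := by
  obtain ⟨v₀⟩ := hT.connected.nonempty
  set N : V → Subgroup M := fun v => stabilizer M v ⊓ lam.ker with hN
  have hNc : ∀ u v, (N u).relIndex (N v) ≠ 0 := fun u v => relIndex_inf_ne (hc u v) lam.ker
  have hEs : ∀ u v, Es (N u) = Es (N v) := fun u v => Es.congr (hNc u v) (hNc v u)
  have hcmd : ∀ v, Cmd (N v) := fun v => cmd_stab hc lam.ker v
  -- the map from the integers to the rationals
  let cast : Multiplicative ℤ →* Multiplicative ℚ :=
    AddMonoidHom.toMultiplicative (Int.castAddHom ℚ)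
  have hcast : ∀ z, cast z = 1 → z = 1 := by
    intro z hz
    have h1 : ((Multiplicative.toAdd z : ℤ) : ℚ) = 0 := congrArg Multiplicative.toAdd hz
    apply Multiplicative.toAdd.injective
    exact_mod_cast h1
  have hVN : ∀ v, VS n (N v) := by
    intro v
    obtain ⟨x, hx, hlx⟩ := hl v
    let g : stabilizer M v →* Multiplicative ℚ := cast.comp (lam.comp (stabilizer M v).subtype)
    have hg : g ≠ 1 := by
      intro h1
      have h2 := DFunLike.congr_fun h1 (⟨x, hx⟩ : stabilizer M v)
      exact hlx (hcast _ h2)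
    refine ((hV v).ker g hg).of_injective
      { toFun := fun y => ⟨⟨(y : M), y.2.1⟩, by
          rw [MonoidHom.mem_ker]
          show cast (lam (y : M)) = 1
          rw [show lam (y : M) = 1 from y.2.2, map_one]⟩
        map_one' := rfl
        map_mul' := fun a b => rfl } ?_
    intro a b hab
    have h7 : ((a : N v) : M) = (b : N v) :=
      congrArg (fun z => (((z : g.ker) : stabilizer M v) : M)) hab
    exact Subtype.ext h7
  have hfd : ∀ v, FiniteDimensional ℚ (Es (N v)) := fun v => Es.finiteDimensional_vs (hVN v)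
  have hfd0 := hfd v₀
  obtain ⟨ρ, ev, hev, -, hconj, ⟨K, hKN, hKi, hρK, hKadd⟩, hfix'⟩ := exists_rep (hcmd v₀)
  have hfix : ∀ v : V, ∀ x ∈ stabilizer M v, lam x ≠ 1 → ∀ w, ρ x w = w → w = 0 := by
    intro v x hx hlx
    refine hfix' x fun ψ hψ hψx => ?_
    have := hfd v
    refine fix_eq_zero lam (D := stabilizer M v) (hcmd v) (hB v) hx hlx ?_ hψx
    have h1 : Es (N v₀) = Es (stabilizer M v ⊓ lam.ker) := hEs v₀ v
    rw [← h1]
    exact hψ
  have hKv : ∀ v : V, K.relIndex (stabilizer M v ⊓ lam.ker) ≠ 0 := fun v =>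
    Subgroup.relIndex_ne_zero_trans hKi (hNc v₀ v)
  obtain ⟨Φ, hΦ⟩ := exists_Phi hT hadj hinv hconj lam hKv hρK hKadd hfix
  by_cases h0 : ∀ f ∈ Es (N v₀), f = 0
  · -- the kernels are trivial
    have htriv : ∀ v, ∀ x ∈ N v, x = 1 := by
      intro v x hx
      have h1 : Finite (N v) := by
        refine (hVN v).finite_of_VH fun f hf => ?_
        obtain ⟨g, hg, hgf⟩ := Es.exists_of_VH f hf
        rw [← hEs v₀ v] at hg
        have h2 := h0 g hg
        funext b
        rw [← hgf b, h2]
        rfl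
      obtain ⟨m, hm, hxm⟩ := isOfFinOrder_iff_pow_eq_one.1
        (isOfFinOrder_of_finite (⟨x, hx⟩ : N v))
      exact htf x m hm (congrArg Subtype.val hxm)
    refine hP.tree_mem hT hadj (fun v => ?_) lam hP.int ?_
    · refine hP.of_injective (lam.comp (stabilizer M v).subtype) ?_ hP.int
      rw [injective_iff_map_eq_one]
      intro x hx
      exact Subtype.ext (htriv v x ⟨x.2, hx⟩)
    · intro u v _ g hgu _ hg
      exact htriv u g ⟨hgu, hg⟩
  · push Not at h0
    obtain ⟨f₀, hf₀, hf₀'⟩ := h0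
    have hPW : P ((Module.Dual ℚ (Es (N v₀)) × ℚ) ≃ₗ[ℚ] (Module.Dual ℚ (Es (N v₀)) × ℚ)) :=
      linearEquiv_mem hP hGL _
    refine hP.extension (lam.prod Φ) (hP.prod hP.int hPW) fun q => ?_
    set M' : Subgroup M := (Subgroup.zpowers q).comap (lam.prod Φ) with hM'
    refine ih (M := M') (T := T) hT (fun g u v h => hadj (g : M) u v h)
      (fun g u v h h1 h2 => hinv (g : M) u v h h1 h2)
      (TorsionFree.of_injective M'.subtype M'.subtype_injective htf) (fun v => ?_)
      (fun u v _ => hall_sub hc M' u v)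
    refine vs_stab M' v ?_
    by_cases hy : ∀ y ∈ M' ⊓ stabilizer M v, lam y = 1
    · exact vs_le (fun y hy' => (⟨hy'.2, hy y hy'⟩ : y ∈ N v)) (hVN v)
    · push Not at hy
      obtain ⟨y, hy1, hy2⟩ := hy
      obtain ⟨K', -, hK'i, hK'⟩ := hΦ v
      obtain ⟨a, ha⟩ := hy1.1
      have ha1 : q.1 ^ a = lam y := congrArg Prod.fst ha
      have hq1 : q.1 ≠ 1 := by
        intro h5
        rw [h5, one_zpow] at ha1
        exact hy2 ha1.symm
      -- `Y` meets the kernel of `lam` in a group of smaller rank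
      have hlow : VS (n + 1) (M' ⊓ stabilizer M v : Subgroup M) → VS n
          (M' ⊓ stabilizer M v : Subgroup M) := by
        intro _
        have hn : n ≠ 0 := by
          rintro rfl
          apply hf₀'
          have h1 : Finite (N v₀) := hVN v₀
          refine Es.eq_zero hf₀ (K := ⊥) ?_ ?_
          · rw [Subgroup.relIndex_bot_left]
            exact Nat.card_pos.ne'
          · intro k hk _
            rw [Subgroup.mem_bot] at hk
            rw [hk]
            have := hf₀.2.1 1 0
            simpa using this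
        obtain ⟨m, rfl⟩ := Nat.exists_eq_succ_of_ne_zero hn
        have hY : VS m (M' ⊓ N v : Subgroup M) := by
          have hf₁ : f₀ ∈ Es (N v) := by
            rw [← hEs v₀ v]; exact hf₀
          refine VS.of_Es (hVN v) hf₁ hf₀' inf_le_right (L := K') (fun h1 =>
            hK'i (Subgroup.relIndex_eq_zero_of_le_right inf_le_right h1)) fun k hk hk' => ?_
          obtain ⟨b, hb⟩ := hk'.1
          have hb1 : q.1 ^ b = lam k := congrArg Prod.fst hb
          have hlk : lam k = 1 := hk'.2.2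
          rw [hlk] at hb1
          have hb0 := zpow_mul_ne hq1 hb1
          have hb2 : q.2 ^ b = Φ k := congrArg Prod.snd hb
          rw [hb0, zpow_zero] at hb2
          have h6 := hK' k hk hk'.2.1 hlk
          rw [← hb2, ← aff_one_zero] at h6
          have h7 := hev k ⟨f₀, hf₀⟩
          rw [← aff_one_inj h6] at h7
          exact h7.symm
        refine VS.succ_of_hom (cast.comp (lam.comp (Subgroup.subtype _))) ?_
        refine hY.of_injective
          { toFun := fun z => ⟨((z : (M' ⊓ stabilizer M v : Subgroup M)) : M),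
              (z : (M' ⊓ stabilizer M v : Subgroup M)).2.1,
              (z : (M' ⊓ stabilizer M v : Subgroup M)).2.2, hcast _ z.2⟩
            map_one' := rfl
            map_mul' := fun a b => rfl } ?_
        intro a b hab
        have h8 : ((a : (M' ⊓ stabilizer M v : Subgroup M)) : M) =
            ((b : (M' ⊓ stabilizer M v : Subgroup M)) : M) :=
          congrArg (fun z : (M' ⊓ N v : Subgroup M) => (z : M)) hab
        exact Subtype.ext (Subtype.ext h8)
      exact hlow (vs_le inf_le_right (hV v))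

/-- homomorphism to the integers with the same kernel -/
theorem exists_lam' {G Q : Type} [Group G] [Group Q] (f : G →* Q) {q : Q}
    (hq : ∀ g, f g ∈ Subgroup.zpowers q) (ho : ¬ IsOfFinOrder q) :
    ∃ lam : G →* Multiplicative ℤ, ∀ g, lam g = 1 ↔ f g = 1 := by
  have hinj : Function.Injective (zpowersHom Q q) := by
    intro a b hab
    have h1 : q ^ (Multiplicative.toAdd a) = q ^ (Multiplicative.toAdd b) := by
      simpa [zpowersHom_apply] using hab
    exact Multiplicative.toAdd.injective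
      (injective_zpow_iff_not_isOfFinOrder.2 ho h1)
  let e := MonoidHom.ofInjective hinj
  have hr : ∀ g, f g ∈ (zpowersHom Q q).range := by
    intro g
    obtain ⟨k, hk⟩ := Subgroup.mem_zpowers_iff.1 (hq g)
    refine ⟨Multiplicative.ofAdd k, ?_⟩
    simpa [zpowersHom_apply] using hk
  refine ⟨e.symm.toMonoidHom.comp (f.codRestrict (zpowersHom Q q).range hr), fun g => ?_⟩
  constructor
  · intro hg
    have h1 : f.codRestrict (zpowersHom Q q).range hr g = 1 := by
      apply e.symm.injective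
      rw [map_one]
      exact hg
    exact congrArg Subtype.val h1
  · intro hg
    have h1 : f.codRestrict (zpowersHom Q q).range hr g = 1 := Subtype.ext hg
    show e.symm (f.codRestrict (zpowersHom Q q).range hr g) = 1
    rw [h1, map_one]

/-- A homomorphism to the integers that is nontrivial on the stabilizers. -/
theorem fis_lam (hP : IsFJClass P) (hGL : ∀ m : ℕ, P (Matrix.GeneralLinearGroup (Fin m) ℚ))
    {n : ℕ} (ih : FIS P n) {M V : Type} [Group M] [MulAction M V] {T : SimpleGraph V}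
    (hT : T.IsTree) (hadj : TreeCl.Inv M T) (hinv : TreeCl.NoInv M T) (htf : TorsionFree M)
    (hV : ∀ v : V, VS (n + 1) (stabilizer M v))
    (hc : ∀ u v : V, (stabilizer M u).relIndex (stabilizer M v) ≠ 0)
    (lam : M →* Multiplicative ℤ) (hl : ∀ v : V, ∃ x ∈ stabilizer M v, lam x ≠ 1) : P M := by
  by_cases hB : ∀ v : V, ∀ f ∈ Es (stabilizer M v), ∀ x ∈ stabilizer M v, lam x = 1 → f x = 0
  · exact fis_bad hP hGL ih hT hadj hinv htf hV hc lam hl hB
  push Not at hB
  obtain ⟨v, f, hf, x, hx, hlx, hfx⟩ := hB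
  obtain ⟨z, hz, hlz⟩ := hl v
  -- `lam` as a virtual homomorphism
  obtain ⟨g, hg, hgl⟩ := Es.exists_of_hom (B := stabilizer M v) (D := stabilizer M v)
    (by rw [Subgroup.relIndex_self]; exact one_ne_zero)
    (by rw [Subgroup.relIndex_self]; exact one_ne_zero)
    (fun y => ((Multiplicative.toAdd (lam y) : ℤ) : ℚ)) (by
      intro a _ b _
      simp only [map_mul, toAdd_mul]
      push_cast
      rfl)
  refine fis_two hP hGL ih hT hadj hinv htf hV hc v hf hg ?_
  intro a b hab
  have h1 := congrFun hab x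
  simp only [Pi.add_apply, Pi.smul_apply, smul_eq_mul, Pi.zero_apply] at h1
  rw [hgl x hx, hlx, toAdd_one, Int.cast_zero, mul_zero, add_zero] at h1
  have ha : a = 0 := (mul_eq_zero.1 h1).resolve_right hfx
  refine ⟨ha, ?_⟩
  have h2 := congrFun hab z
  simp only [Pi.add_apply, Pi.smul_apply, smul_eq_mul, Pi.zero_apply] at h2
  rw [ha, zero_mul, zero_add, hgl z hz] at h2
  refine (mul_eq_zero.1 h2).resolve_right fun h3 => hlz ?_
  apply Multiplicative.toAdd.injective
  exact_mod_cast h3

theorem fis_succ (hP : IsFJClass P) (hGL : ∀ m : ℕ, P (Matrix.GeneralLinearGroup (Fin m) ℚ))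
    {n : ℕ} (ih : FIS P n) : FIS P (n + 1) := by
  intro M V _ _ T hT hadj hinv htf hV hadjc
  have hall : ∀ u v : V, (stabilizer M u).relIndex (stabilizer M v) ≠ 0 :=
    comm_all hT.connected hadjc
  obtain ⟨v0⟩ : Nonempty V := hT.connected.nonempty
  by_cases h0 : ∀ f ∈ Es (stabilizer M v0), f = 0
  · -- no virtual homomorphisms: the stabilizers are finite
    have h1 : Finite (stabilizer M v0) := by
      refine VS.finite_of_VH (hV v0) fun f hf => ?_
      obtain ⟨g, hg, hgf⟩ := Es.exists_of_VH f hf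
      have h1 := h0 g hg
      funext b
      rw [← hgf b, h1]
      rfl
    exact ih hT hadj hinv htf (fun w => vs_comm (hall v0 w) (VS.of_finite h1 n)) hadjc
  push Not at h0
  obtain ⟨f₀, hf₀, hf₀'⟩ := h0
  obtain ⟨ev, hev1, Φ, hΦ⟩ := exists_Phi' hT hadj hinv hV hall v0
  have hfd : FiniteDimensional ℚ (Es (stabilizer M v0)) := Es.finiteDimensional_vs (hV v0)
  refine hP.extension Φ (linearEquiv_mem hP hGL _) fun q => ?_
  set M' : Subgroup M := (Subgroup.zpowers q).comap Φ with hM'
  have hadj' : TreeCl.Inv M' T := fun g u v h => hadj (g : M) u v h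
  have hinv' : TreeCl.NoInv M' T := fun g u v h h1 h2 => hinv (g : M) u v h h1 h2
  have htf' : TorsionFree M' := TorsionFree.of_injective M'.subtype M'.subtype_injective htf
  have hall' := hall_sub hall M'
  -- stabilizers on which the evaluation is trivial
  have hlow : ∀ v : V, (∀ L : Subgroup M, L.relIndex (M' ⊓ stabilizer M v) ≠ 0 →
      (∀ k ∈ L, k ∈ M' ⊓ stabilizer M v → ev k = 0) → VS n (stabilizer M' v)) := by
    intro v L hL hk
    refine vs_stab M' v ?_
    have hf₁ : f₀ ∈ Es (stabilizer M v) := by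
      rw [Es.congr (hall v v0) (hall v0 v)]
      exact hf₀
    refine VS.of_Es (hV v) hf₁ hf₀' inf_le_right hL fun k hkL hk' => ?_
    have h1 := hev1 k ⟨f₀, hf₀⟩
    rw [hk k hkL hk'] at h1
    exact h1.symm
  by_cases ho : IsOfFinOrder q
  · refine ih hT hadj' hinv' htf' (fun v => ?_) (fun u v _ => hall' u v)
    obtain ⟨K', hK2, hK3⟩ := hΦ v
    refine hlow v K' (fun h1 => hK2 (Subgroup.relIndex_eq_zero_of_le_right inf_le_right h1))
      fun k hk hk' => ?_
    obtain ⟨b, hb⟩ := hk'.1
    have hb' : q ^ b = aff 1 (ev k) := by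
      rw [← hK3 k hk hk'.2]; exact hb
    obtain ⟨m, hm, hm'⟩ := isOfFinOrder_iff_pow_eq_one.1 (ho.zpow (i := b))
    rw [hb', ← zpow_natCast, aff_one_zpow, ← aff_one_zero] at hm'
    have h2 := aff_one_inj hm'
    rw [← Int.cast_smul_eq_zsmul ℚ] at h2
    refine (smul_eq_zero.1 h2).resolve_left ?_
    have : m ≠ 0 := by omega
    exact_mod_cast this
  obtain ⟨lam, hlam⟩ := exists_lam' (Φ.comp M'.subtype) (q := q) (fun g => g.2) ho
  by_cases hl : ∀ v : V, ∃ x ∈ stabilizer M' v, lam x ≠ 1
  · refine fis_lam hP hGL ih hT hadj' hinv' htf' (fun v => ?_) hall' lam hl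
    exact vs_stab M' v (vs_le inf_le_right (hV v))
  · push Not at hl
    obtain ⟨v, hv⟩ := hl
    refine ih hT hadj' hinv' htf' (fun w => vs_comm (hall' v w) ?_) (fun u v _ => hall' u v)
    obtain ⟨K', hK2, hK3⟩ := hΦ v
    refine hlow v K' (fun h1 => hK2 (Subgroup.relIndex_eq_zero_of_le_right inf_le_right h1))
      fun k hk hk' => ?_
    have h1 : lam ⟨k, hk'.1⟩ = 1 := hv ⟨k, hk'.1⟩ hk'.2
    have h2 : Φ k = 1 := (hlam ⟨k, hk'.1⟩).1 h1
    rw [hK3 k hk hk'.2, ← aff_one_zero] at h2
    exact aff_one_inj h2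

theorem fis (hP : IsFJClass P) (hGL : ∀ m : ℕ, P (Matrix.GeneralLinearGroup (Fin m) ℚ)) :
    ∀ n : ℕ, FIS P n := by
  intro n
  induction n with
  | zero => exact fis_zero hP
  | succ n ih => exact fis_succ hP hGL ih

end Pool.Agent.Biset
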